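import Pool.Agent.Q250.Braid.Words

set_option autoImplicit false

namespace Pool.Agent.Results.MP_948f5d_co.LinkIndecomposable

open Pool.Agent.Q250.Braid

variable {B : Type*}

/-- Simply-laced Coxeter matrices. -/
def SimplyLaced (M : CoxeterMatrix B) : Prop := ∀ s t : B, s ≠ t → M s t = 2 ∨ M s t = 3

/-- A braid move replaces a factor `s t s` by `t s t`, where `m(s,t) = 3`. -/
def BraidMove (M : CoxeterMatrix B) (β γ : List B) : Prop :=
  ∃ (u v : List B) (s t : B), M s t = 3 ∧ β = u ++ [s, t, s] ++ v ∧ γ = u ++ [t, s, t] ++ v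

/-- The braid class of a word. -/
def BraidClass (M : CoxeterMatrix B) (α : List B) : Type _ :=
  {β : List B // Relation.ReflTransGen (BraidMove M) α β}

/-- The braid graph of a word. -/
def braidGraph (M : CoxeterMatrix B) (α : List B) : SimpleGraph (BraidClass M α) where
  Adj β γ := BraidMove M β.1 γ.1
  symm := ⟨fun _ _ h => Br.symm (fun _ _ h => E3.symm h) h⟩
  loopless := ⟨fun _ h => Br.ne E3_irrefl h rfl⟩

/-- `β` has a braid shadow at the positions `i, i+1, i+2` (counted from `0`). -/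
def HasShadow (M : CoxeterMatrix B) (β : List B) (i : ℕ) : Prop :=
  ∃ (u v : List B) (s t : B), M s t = 3 ∧ β = u ++ [s, t, s] ++ v ∧ u.length = i

/-- A word `α` is a link if it has length `1`, or its length `m` is odd and the braid shadows
occurring in its braid class are exactly those starting at the positions `0, 2, …, m - 3`
(counted from `0`). -/
def IsLink (M : CoxeterMatrix B) (α : List B) : Prop :=
  α.length = 1 ∨ (Odd α.length ∧
    ∀ i : ℕ, (∃ β : BraidClass M α, HasShadow M β.1 i) ↔ Even i ∧ i + 3 ≤ α.length)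

/-- Braid move at start position `i`. -/
def BrAt (M : CoxeterMatrix B) (i : ℕ) (β γ : List B) : Prop :=
  ∃ (u v : List B) (s t : B), M s t = 3 ∧ β = u ++ [s, t, s] ++ v ∧ γ = u ++ [t, s, t] ++ v ∧
    u.length = i

lemma exists_brAt {M : CoxeterMatrix B} {β γ : List B} (h : BraidMove M β γ) :
    ∃ i, BrAt M i β γ := by
  obtain ⟨u, v, s, t, h1, h2, h3⟩ := h
  exact ⟨u.length, u, v, s, t, h1, h2, h3, rfl⟩

lemma BrAt.move {M : CoxeterMatrix B} {i : ℕ} {β γ : List B} (h : BrAt M i β γ) :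
    BraidMove M β γ := by
  obtain ⟨u, v, s, t, h1, h2, h3, _⟩ := h
  exact ⟨u, v, s, t, h1, h2, h3⟩

lemma BrAt.symm {M : CoxeterMatrix B} {i : ℕ} {β γ : List B} (h : BrAt M i β γ) :
    BrAt M i γ β := by
  obtain ⟨u, v, s, t, h1, h2, h3, h4⟩ := h
  exact ⟨u, v, t, s, by rw [M.symmetric]; exact h1, h3, h2, h4⟩

lemma BrAt.shadow {M : CoxeterMatrix B} {i : ℕ} {β γ : List B} (h : BrAt M i β γ) :
    HasShadow M β i := by
  obtain ⟨u, v, s, t, h1, h2, h3, h4⟩ := h
  exact ⟨u, v, s, t, h1, h2, h4⟩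

lemma BrAt.get {M : CoxeterMatrix B} {i : ℕ} {β γ : List B} (h : BrAt M i β γ) :
    ∃ s t, s ≠ t ∧ β[i]? = some s ∧ β[i + 1]? = some t ∧ β[i + 2]? = some s ∧
      γ[i]? = some t ∧ γ[i + 1]? = some s ∧ γ[i + 2]? = some t ∧
      ∀ j, j ≠ i → j ≠ i + 1 → j ≠ i + 2 → γ[j]? = β[j]? := by
  obtain ⟨u, v, s, t, h1, rfl, rfl, rfl⟩ := h
  have hst : s ≠ t := by
    rintro rfl
    rw [M.diagonal] at h1
    omega
  refine ⟨s, t, hst, ?_, ?_, ?_, ?_, ?_, ?_, ?_⟩
  · simp
  · simp
  · simp
  · simp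
  · simp
  · simp
  · intro j h1 h2 h3
    rw [List.append_assoc, List.append_assoc]
    rcases lt_trichotomy j u.length with h | h | h
    · rw [List.getElem?_append_left h, List.getElem?_append_left h]
    · exact absurd h h1
    · rw [List.getElem?_append_right h.le, List.getElem?_append_right h.le]
      obtain ⟨k, hk⟩ : ∃ k, j - u.length = k + 3 := ⟨j - u.length - 3, by omega⟩
      rw [hk]
      simp

lemma BrAt.unique {M : CoxeterMatrix B} {i : ℕ} {β γ γ' : List B} (h : BrAt M i β γ)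
    (h' : BrAt M i β γ') : γ = γ' := by
  obtain ⟨s, t, -, a1, a2, a3, b1, b2, b3, b4⟩ := h.get
  obtain ⟨s', t', -, a1', a2', a3', b1', b2', b3', b4'⟩ := h'.get
  have hs : s = s' := Option.some.inj (a1.symm.trans a1')
  have ht : t = t' := Option.some.inj (a2.symm.trans a2')
  subst hs ht
  apply List.ext_getElem?
  intro j
  by_cases h1 : j = i
  · rw [h1, b1, b1']
  by_cases h2 : j = i + 1
  · rw [h2, b2, b2']
  by_cases h3 : j = i + 2
  · rw [h3, b3, b3']
  rw [b4 j h1 h2 h3, b4' j h1 h2 h3]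

/-- The centre letter changes. -/
lemma BrAt.center {M : CoxeterMatrix B} {i : ℕ} {β γ : List B} (h : BrAt M i β γ) :
    γ[i + 1]? ≠ β[i + 1]? := by
  obtain ⟨s, t, hst, a1, a2, a3, b1, b2, b3, b4⟩ := h.get
  rw [a2, b2]
  simpa using hst

/-- Moves at other even positions do not change the centre letter. -/
lemma BrAt.center_eq {M : CoxeterMatrix B} {i j : ℕ} {β γ : List B} (h : BrAt M j β γ)
    (hi : Even i) (hj : Even j) (hij : i ≠ j) : γ[i + 1]? = β[i + 1]? := by
  obtain ⟨s, t, hst, a1, a2, a3, b1, b2, b3, b4⟩ := h.get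
  obtain ⟨a, ha⟩ := hi
  obtain ⟨b, hb⟩ := hj
  exact b4 (i + 1) (by omega) (by omega) (by omega)

/-- Squares. -/
lemma square {M : CoxeterMatrix B} {i j k l : ℕ} (hi : Even i) (hj : Even j) (hk : Even k)
    (hl : Even l) {β γ₁ γ₂ δ : List B} (h1 : BrAt M i β γ₁) (h2 : BrAt M j β γ₂)
    (h3 : BrAt M k γ₁ δ) (h4 : BrAt M l γ₂ δ) (hne : γ₁ ≠ γ₂) (hne' : δ ≠ β) :
    k = j ∧ l = i := by
  have hij : i ≠ j := by
    rintro rfl
    exact hne (h1.unique h2)
  have hki : k ≠ i := by
    rintro rfl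
    exact hne' (h3.unique h1.symm)
  have hlj : l ≠ j := by
    rintro rfl
    exact hne' (h4.unique h2.symm)
  constructor
  · by_contra hkj
    -- position `j + 1`
    have e1 := h2.center
    have e2 := h1.center_eq hj hi (Ne.symm hij)
    have e3 := h3.center_eq hj hk (Ne.symm hkj)
    have e4 := h4.center_eq hj hl (Ne.symm hlj)
    exact e1 (by rw [← e4, e3, e2])
  · by_contra hli
    have e1 := h1.center
    have e2 := h2.center_eq hi hj hij
    have e3 := h4.center_eq hi hl (Ne.symm hli)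
    have e4 := h3.center_eq hi hk (Ne.symm hki)
    exact e1 (by rw [← e4, e3, e2])

/-- Overlapping simultaneously available moves do not commute. -/
lemma overlap {M : CoxeterMatrix B} {i : ℕ} {β γ₁ γ₂ δ : List B} (h1 : BrAt M i β γ₁)
    (h2 : BrAt M (i + 2) β γ₂) (h3 : BrAt M (i + 2) γ₁ δ) : False := by
  obtain ⟨s, t, hst, a1, a2, a3, b1, b2, b3, b4⟩ := h1.get
  obtain ⟨s', t', hst', c1, c2, c3, -⟩ := h2.get
  obtain ⟨s'', t'', -, d1, d2, d3, -⟩ := h3.get
  have e1 : γ₁[i + 2 + 2]? = β[i + 2 + 2]? := b4 _ (by omega) (by omega) (by omega)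
  have e2 : s = s' := Option.some.inj (a3.symm.trans c1)
  have e3 : t = s'' := Option.some.inj (b3.symm.trans d1)
  have e4 : s' = s'' := Option.some.inj (c3.symm.trans (e1.symm.trans d3))
  exact hst (e2.trans (e4.trans e3.symm))

/-- **Main result.** In a simply-laced Coxeter system the braid graph of a link is not isomorphic
to a box product of two graphs with at least two vertices each. -/
theorem result {B W : Type*} [Group W] (M : CoxeterMatrix B) (cs : CoxeterSystem M W)
    (_hM : SimplyLaced M) (α : List B) (_hα : cs.IsReduced α) (hlink : IsLink M α)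
    {V₁ V₂ : Type*} (G : SimpleGraph V₁) (H : SimpleGraph V₂) [Nontrivial V₁] [Nontrivial V₂] :
    ¬ Nonempty (braidGraph M α ≃g G □ H) := by
  rintro ⟨φ⟩
  -- all moves are at even positions
  have heven : ∀ (β : BraidClass M α) (γ : List B) (i : ℕ), BrAt M i β.1 γ → Even i ∧
      i + 3 ≤ α.length := by
    intro β γ i h
    have hlen : ∀ δ : List B, Relation.ReflTransGen (BraidMove M) α δ →
        δ.length = α.length := by
      intro δ hδ
      induction hδ with
      | refl => rfl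
      | tail _ h2 ih => rw [← ih]; exact Br.length_eq (E := E3 M) h2
    rcases hlink with h1 | ⟨_, h1⟩
    · exfalso
      obtain ⟨u, v, s, t, _, h2, _⟩ := h
      have h3 := hlen β.1 β.2
      rw [h1, h2] at h3
      simp at h3
      omega
    · exact (h1 i).mp ⟨β, h.shadow⟩
  -- connectedness
  have hconn : (braidGraph M α).Connected := by
    have key : ∀ β : List B, ∀ h : Relation.ReflTransGen (BraidMove M) α β,
        (braidGraph M α).Reachable ⟨α, Relation.ReflTransGen.refl⟩ ⟨β, h⟩ := by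
      intro β h
      induction h with
      | refl => exact SimpleGraph.Reachable.refl _
      | tail h1 h2 ih =>
        exact ih.trans (SimpleGraph.Adj.reachable (G := braidGraph M α)
          (u := ⟨_, h1⟩) (v := ⟨_, h1.tail h2⟩) h2)
    have : Nonempty (BraidClass M α) := ⟨⟨α, Relation.ReflTransGen.refl⟩⟩
    exact ⟨fun β γ => (key β.1 β.2).symm.trans (key γ.1 γ.2)⟩
  have hGH : (G □ H).Connected := (φ.connected_iff).mp hconn
  have hG : G.Connected := hGH.ofBoxProdLeft
  have hH : H.Connected := hGH.ofBoxProdRight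
  -- the words at the vertices of the product
  set L : V₁ × V₂ → List B := fun x => (φ.symm x).1 with hL
  have hLinj : ∀ x y, L x = L y → x = y := fun x y h => φ.symm.injective (Subtype.ext h)
  have hadj : ∀ x y, (G □ H).Adj x y → ∃ i, BrAt M i (L x) (L y) := fun x y h =>
    exists_brAt (φ.symm.map_adj_iff.mpr h)
  have hev : ∀ x (γ : List B) i, BrAt M i (L x) γ → Even i := fun x γ i h =>
    (heven (φ.symm x) γ i h).1
  -- parallel transport
  have trans : ∀ (x y x' y' : V₁ × V₂) (i : ℕ), BrAt M i (L x) (L y) → (G □ H).Adj x x' →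
      (G □ H).Adj y y' → (G □ H).Adj x' y' → y ≠ x' → x ≠ y' →
      BrAt M i (L x') (L y') ∧ ∀ j, BrAt M j (L x) (L x') → BrAt M j (L y) (L y') := by
    intro x y x' y' i h1 hxx hyy hxy hne hne'
    obtain ⟨j, h2⟩ := hadj _ _ hxx
    obtain ⟨k, h3⟩ := hadj _ _ hyy
    obtain ⟨l, h4⟩ := hadj _ _ hxy
    have hsq := square (hev _ _ _ h1) (hev _ _ _ h2) (hev _ _ _ h3) (hev _ _ _ h4) h1 h2 h3 h4
      (fun h => hne (hLinj _ _ h)) (fun h => hne' (hLinj _ _ h).symm)
    refine ⟨hsq.2 ▸ h4, ?_⟩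
    intro j' h2'
    have hjj : j' = j := by
      by_contra hjj
      exact h2'.center (h2.center_eq (hev _ _ _ h2') (hev _ _ _ h2) hjj)
    rw [hjj, ← hsq.1]
    exact h3
  have ha : ∀ g g', G.Adj g g' → ∃ i, ∀ h, BrAt M i (L (g, h)) (L (g', h)) := by
    intro g g' hg
    obtain ⟨h₀⟩ := hH.nonempty
    obtain ⟨i, hi⟩ := hadj (g, h₀) (g', h₀) (SimpleGraph.boxProd_adj_left.mpr hg)
    refine ⟨i, fun h => ?_⟩
    obtain ⟨w⟩ := hH.preconnected h₀ h
    have key : ∀ a b : V₂, H.Walk a b → BrAt M i (L (g, a)) (L (g', a)) →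
        BrAt M i (L (g, b)) (L (g', b)) := by
      intro a b w
      induction w with
      | nil => exact id
      | cons hab _ ih =>
        intro h1
        apply ih
        exact (trans _ _ _ _ i h1 (SimpleGraph.boxProd_adj_right.mpr hab)
          (SimpleGraph.boxProd_adj_right.mpr hab) (SimpleGraph.boxProd_adj_left.mpr hg)
          (fun h => hg.ne (Prod.ext_iff.mp h).1.symm) (fun h => hg.ne (Prod.ext_iff.mp h).1)).1
    exact key _ _ w hi
  have hb : ∀ h h', H.Adj h h' → ∃ i, ∀ g, BrAt M i (L (g, h)) (L (g, h')) := by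
    intro h h' hh
    obtain ⟨g₀⟩ := hG.nonempty
    obtain ⟨i, hi⟩ := hadj (g₀, h) (g₀, h') (SimpleGraph.boxProd_adj_right.mpr hh)
    refine ⟨i, fun g => ?_⟩
    obtain ⟨w⟩ := hG.preconnected g₀ g
    have key : ∀ a b : V₁, G.Walk a b → BrAt M i (L (a, h)) (L (a, h')) →
        BrAt M i (L (b, h)) (L (b, h')) := by
      intro a b w
      induction w with
      | nil => exact id
      | cons hab _ ih =>
        intro h1
        apply ih
        exact (trans _ _ _ _ i h1 (SimpleGraph.boxProd_adj_left.mpr hab)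
          (SimpleGraph.boxProd_adj_left.mpr hab) (SimpleGraph.boxProd_adj_right.mpr hh)
          (fun h => hh.ne (Prod.ext_iff.mp h).2.symm) (fun h => hh.ne (Prod.ext_iff.mp h).2)).1
    exact key _ _ w hi
  set RG : ℕ → Prop := fun i => ∃ g g', G.Adj g g' ∧ ∀ h, BrAt M i (L (g, h)) (L (g', h)) with hRG
  set RH : ℕ → Prop := fun i => ∃ h h', H.Adj h h' ∧ ∀ g, BrAt M i (L (g, h)) (L (g, h')) with hRH
  -- red and blue positions are far apart
  have hc : ∀ i j, RG i → RH j → i ≠ j ∧ j ≠ i + 2 ∧ i ≠ j + 2 := by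
    rintro i j ⟨g, g', hg, hi⟩ ⟨h, h', hh, hj⟩
    have h1 := hi h
    have h2 := hj g
    have h3 := hj g'
    have h4 := hi h'
    refine ⟨?_, ?_, ?_⟩
    · rintro rfl
      have := hLinj _ _ (h1.unique h2)
      exact hg.ne (Prod.ext_iff.mp this).1.symm
    · rintro rfl
      exact overlap h1 h2 h3
    · rintro rfl
      exact overlap h2 h1 h4
  have hgood : ∀ i, RG i ∨ RH i → Even i ∧ i + 3 ≤ α.length := by
    rintro i (⟨g, g', hg, hi⟩ | ⟨h, h', hh, hj⟩)
    · obtain ⟨h₀⟩ := hH.nonempty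
      exact heven _ _ _ (hi h₀)
    · obtain ⟨g₀⟩ := hG.nonempty
      exact heven _ _ _ (hj g₀)
  -- every centre of the link is red or blue
  have hd : ∀ i, Even i → i + 3 ≤ α.length → RG i ∨ RH i := by
    intro i hi hlen
    rcases hlink with h1 | ⟨_, h1⟩
    · omega
    obtain ⟨β, u, v, s, t, hst, hβ, hu⟩ := (h1 i).mpr ⟨hi, hlen⟩
    have hm : BrAt M i β.1 (u ++ [t, s, t] ++ v) := ⟨u, v, s, t, hst, hβ, rfl, hu⟩
    set γ : BraidClass M α := ⟨u ++ [t, s, t] ++ v, β.2.tail hm.move⟩ with hγ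
    have hAdj : (braidGraph M α).Adj β γ := hm.move
    have h2 := φ.map_adj_iff.mpr hAdj
    have e1 : L (φ β) = β.1 := by simp [hL]
    have e2 : L (φ γ) = γ.1 := by simp [hL]
    have huniq : ∀ i', BrAt M i' β.1 γ.1 → i' = i := by
      intro i' hi'
      by_contra hne
      exact hm.center (hi'.center_eq hi (heven β _ _ hi').1 (Ne.symm hne))
    rw [SimpleGraph.boxProd_adj] at h2
    rcases h2 with ⟨h3, h4⟩ | ⟨h3, h4⟩
    · left
      obtain ⟨i', hi'⟩ := ha _ _ h3
      have h5 := hi' (φ β).2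
      have e3 : ((φ γ).1, (φ β).2) = φ γ := Prod.ext rfl h4
      rw [e3, Prod.mk.eta, e1, e2] at h5
      rw [huniq i' h5] at hi'
      exact ⟨_, _, h3, hi'⟩
    · right
      obtain ⟨i', hi'⟩ := hb _ _ h3
      have h5 := hi' (φ β).1
      have e3 : ((φ β).1, (φ γ).2) = φ γ := Prod.ext h4 rfl
      rw [e3, Prod.mk.eta, e1, e2] at h5
      rw [huniq i' h5] at hi'
      exact ⟨_, _, h3, hi'⟩
  -- both colours occur
  have hne : ∀ {V : Type _} (K : SimpleGraph V), K.Connected → Nontrivial V → ∃ a b, K.Adj a b := by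
    intro V K hK hV
    obtain ⟨a, b, hab⟩ := hV.exists_pair_ne
    obtain ⟨w⟩ := hK.preconnected a b
    cases w with
    | nil => exact absurd rfl hab
    | cons h _ => exact ⟨_, _, h⟩
  have hne' : ∀ {V : Type _} (K : SimpleGraph V), K.Connected → Nontrivial V → ∃ a b, K.Adj a b := by
    intro V K hK hV
    obtain ⟨a, b, hab⟩ := hV.exists_pair_ne
    obtain ⟨w⟩ := hK.preconnected a b
    cases w with
    | nil => exact absurd rfl hab
    | cons h _ => exact ⟨_, _, h⟩
  obtain ⟨g, g', hg⟩ := hne G hG inferInstance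
  obtain ⟨h, h', hh⟩ := hne' H hH inferInstance
  obtain ⟨i, hi⟩ := ha g g' hg
  obtain ⟨j, hj⟩ := hb h h' hh
  have hRi : RG i := ⟨g, g', hg, hi⟩
  have hRj : RH j := ⟨h, h', hh, hj⟩
  obtain ⟨hi1, hi2⟩ := hgood i (Or.inl hRi)
  obtain ⟨hj1, hj2⟩ := hgood j (Or.inr hRj)
  obtain ⟨a, ha'⟩ := hi1
  obtain ⟨b, hb'⟩ := hj1
  rcases lt_or_ge i j with hij | hij
  · have key : ∀ n, i + 2 * n ≤ j → RG (i + 2 * n) := by
      intro n
      induction n with
      | zero => intro _; simpa using hRi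
      | succ n ih =>
        intro hn
        have h1 := ih (by omega)
        rcases hd (i + 2 * (n + 1)) ⟨a + (n + 1), by omega⟩ (by omega) with h2 | h2
        · exact h2
        · exact absurd (by ring) (hc _ _ h1 h2).2.1
    have h3 := key (b - a) (by omega)
    have h4 : i + 2 * (b - a) = j := by omega
    rw [h4] at h3
    exact (hc _ _ h3 hRj).1 rfl
  · have key : ∀ n, j + 2 * n ≤ i → RH (j + 2 * n) := by
      intro n
      induction n with
      | zero => intro _; simpa using hRj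
      | succ n ih =>
        intro hn
        have h1 := ih (by omega)
        rcases hd (j + 2 * (n + 1)) ⟨b + (n + 1), by omega⟩ (by omega) with h2 | h2
        · exact absurd (by ring) (hc _ _ h2 h1).2.2
        · exact h2
    have h3 := key (a - b) (by omega)
    have h4 : j + 2 * (a - b) = i := by omega
    rw [h4] at h3
    exact (hc _ _ hRi h3).1 rfl

end Pool.Agent.Results.MP_948f5d_co.LinkIndecomposable
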